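import Pool.Agent.H29.RQ.Targets

set_option autoImplicit false

/-!
Row NU2 of rdq_modules (MP_c65535_nt): choice of the parameter `s`.
-/

namespace Pool.Agent.H30.RQ

open Pool.Agent.H29.RQ Pool.Agent.H23.RDD Pool.Agent.H24.RD NumberField Height Finset Polynomial

theorem pf_NU2 : T_NU2 := by
  intro p hp ε hε
  have hp0 : (0 : ℝ) < p := by exact_mod_cast (by omega : 0 < p)
  have hp2 : (2 : ℝ) ≤ p := by exact_mod_cast hp
  set P := Real.log p with hP
  have hPhalf : 1 / 2 ≤ P := by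
    have h1 : Real.log 2 ≤ P := Real.log_le_log (by norm_num) hp2
    have h2 := Real.log_two_gt_d9
    linarith
  refine ⟨Real.exp (-(21 * P + 9 * P ^ 2 / ε)), Real.exp_pos _, ?_⟩
  intro d hd
  have hd0 : (0 : ℝ) < d := by exact_mod_cast hd
  set L := Real.log d with hLdef
  have hL : 0 ≤ L := Real.log_natCast_nonneg d
  set q := Real.sqrt L with hqdef
  have hq : q ^ 2 = L := Real.sq_sqrt hL
  have hq0 : 0 ≤ q := Real.sqrt_nonneg _
  set s := ⌈20 + 6 * q⌉₊ with hs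
  have hs1 : 20 + 6 * q ≤ s := Nat.le_ceil _
  have hs2 : (s : ℝ) < 20 + 6 * q + 1 := Nat.ceil_lt_add_one (by positivity)
  have hs0 : (0 : ℝ) < s := by linarith
  refine ⟨s, ?_, ?_, ?_⟩
  · have : (0 : ℝ) < (s : ℝ) := hs0
    exact_mod_cast this
  · rw [Real.log_mul hs0.ne' hd0.ne']
    have hlog : Real.log s ≤ s - 1 := Real.log_le_sub_one_of_pos hs0
    have h1 : (s : ℝ) ^ 2 ≥ 20 * s + 36 * L := by
      nlinarith [mul_nonneg hq0 (sub_nonneg.2 hs1)]
    have h2 : P * ((s : ℝ) ^ 2 - 1) / 3 ≥ (1 / 2) * ((s : ℝ) ^ 2 - 1) / 3 := by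
      have h3 : (0 : ℝ) ≤ (s : ℝ) ^ 2 - 1 := by nlinarith
      have h4 := mul_le_mul_of_nonneg_right hPhalf h3
      linarith
    rw [← hLdef]
    linarith
  · have h1 : (p : ℝ) ^ s = Real.exp (P * s) := by
      rw [← Real.rpow_natCast, Real.rpow_def_of_pos hp0]
    have h2 : (d : ℝ) ^ ε = Real.exp (L * ε) := by
      rw [Real.rpow_def_of_pos hd0]
    rw [h1, h2, ← Real.exp_add]
    apply Real.exp_le_exp.2
    have h3 : 6 * P * q ≤ L * ε + 9 * P ^ 2 / ε := by
      have h4 : 0 ≤ (ε * q - 3 * P) ^ 2 := sq_nonneg _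
      have h5 : 6 * P * q * ε ≤ (L * ε + 9 * P ^ 2 / ε) * ε := by
        have h6 : (L * ε + 9 * P ^ 2 / ε) * ε = L * ε ^ 2 + 9 * P ^ 2 := by
          field_simp
        rw [h6, ← hq]
        nlinarith
      exact le_of_mul_le_mul_right h5 hε
    have h7 : P * s ≤ P * (21 + 6 * q) := by
      apply mul_le_mul_of_nonneg_left _ (by linarith)
      linarith
    linarith

end Pool.Agent.H30.RQ
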