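import Pool.Agent.H29.RQ.Targets

set_option autoImplicit false

/-!
Row RNK of rdq_modules (MP_c65535_nt): the rank.
-/

namespace Pool.Agent.H30.RQ

open Pool.Agent.H29.RQ Pool.Agent.H23.RDD Pool.Agent.H24.RD NumberField Height Finset Polynomial

theorem pf_RNK : T_RNK := by
  intro Γ r g hfg hg hind hall
  classical
  have hfinA : Module.Finite ℤ (Additive Γ) := by
    have h1 : Group.FG Γ := (Group.fg_iff_subgroup_fg Γ).2 hfg
    have h2 : AddGroup.FG (Additive Γ) := GroupFG.iff_add_fg.1 h1
    exact Module.Finite.iff_addGroup_fg.2 h2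
  let b : Fin r → Additive Γ := fun i => Additive.ofMul ⟨g i, hg i⟩
  have hsum : ∀ x : Fin r → ℤ, ((Additive.toMul (∑ i, x i • b i) : Γ) : (AlgebraicClosure ℚ)ˣ)
      = ∏ i, g i ^ x i := by
    intro x
    rw [toMul_sum]
    rw [Subgroup.val_finsetProd]
    rfl
  have hli : LinearIndependent ℤ b := by
    rw [Fintype.linearIndependent_iff]
    intro x hx
    have h1 := hsum x
    rw [hx] at h1
    have h2 : x = 0 := hind x h1.symm
    intro i
    rw [h2]
    rfl
  have hB : Module.finrank ℤ (Submodule.span ℤ (Set.range b)) = r := by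
    rw [finrank_span_eq_card hli, Fintype.card_fin]
  have hadd := Submodule.finrank_quotient_add_finrank (R := ℤ) (Submodule.span ℤ (Set.range b))
  have htor : Module.finrank ℤ (Additive Γ ⧸ Submodule.span ℤ (Set.range b)) = 0 := by
    rw [Module.finrank_eq_zero_iff_isTorsion]
    intro z
    obtain ⟨a, rfl⟩ := Submodule.Quotient.mk_surjective _ z
    obtain ⟨x, ξ, j, hj, hξ, ha⟩ := hall (Additive.toMul a : Γ) (Additive.toMul a : Γ).2
    refine ⟨⟨(j : ℤ), ?_⟩, ?_⟩
    · rw [mem_nonZeroDivisors_iff_ne_zero]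
      exact_mod_cast hj.ne'
    · show ((j : ℤ)) • (Submodule.Quotient.mk a : Additive Γ ⧸ Submodule.span ℤ (Set.range b)) = 0
      rw [← Submodule.Quotient.mk_smul, Submodule.Quotient.mk_eq_zero]
      have h3 : (j : ℤ) • a = ∑ i, (j * x i) • b i := by
        apply Additive.toMul.injective
        apply Subtype.ext
        rw [hsum]
        show (((Additive.toMul a : Γ) ^ (j : ℤ) : Γ) : (AlgebraicClosure ℚ)ˣ) = _
        rw [zpow_natCast, Subgroup.coe_pow, ha, mul_pow, hξ, one_mul, ← Finset.prod_pow]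
        apply Finset.prod_congr rfl
        intro i _
        rw [mul_comm, zpow_mul, zpow_natCast]
      rw [h3]
      apply Submodule.sum_mem
      intro i _
      exact Submodule.smul_mem _ _ (Submodule.subset_span ⟨i, rfl⟩)
  omega

end Pool.Agent.H30.RQ
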